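import Mathlib

/-!
# One step of the construction of the Young (anti)symmetriser

`b` is the idempotent of the first `k` factors, `c` the one of the first `k - 1` factors, `t` exchanges
the factors `k - 1`, `k` and `s` the factors `k`, `k + 1`.
-/

set_option autoImplicit false

namespace NCEuler

variable {R : Type*} [Ring R] [Algebra ℚ R]

/-- the next idempotent -/
def nxt (σ k : ℚ) (b s : R) : R := (k + 1)⁻¹ • (b + (σ * k) • (b * s * b))

/-- the induction hypothesis -/
structure Good (σ k : ℚ) (b c t : R) : Prop where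
  bb : b * b = b
  cb : c * b = b
  bc : b * c = b
  bt : b * t = σ • b
  kb : k • b = c + (σ * (k - 1)) • (c * t * c)

theorem cancel {k : ℚ} (hk : k ≠ 0) {x y : R} (h : k • x = k • y) : x = y := by
  have h4 := congrArg (fun x => k⁻¹ • x) h
  simpa only [smul_smul, inv_mul_cancel₀ hk, one_smul] using h4

theorem nxt_mul {σ k : ℚ} {b s : R} (hbb : b * b = b) : nxt σ k b s * b = nxt σ k b s := by
  rw [nxt, smul_mul_assoc, add_mul, hbb, smul_mul_assoc, mul_assoc (b * s) b b, hbb]

theorem mul_nxt {σ k : ℚ} {b s : R} (hbb : b * b = b) : b * nxt σ k b s = nxt σ k b s := by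
  rw [nxt, mul_smul_comm, mul_add, hbb, mul_smul_comm, ← mul_assoc, ← mul_assoc, hbb]

theorem nxt_smul {σ k : ℚ} {b s : R} (hk : k + 1 ≠ 0) :
    (k + 1) • nxt σ k b s = b + (σ * k) • (b * s * b) := by
  rw [nxt, smul_smul, mul_inv_cancel₀ hk, one_smul]

theorem nxt_s {σ k : ℚ} (hσ : σ * σ = 1) (hk : k + 1 ≠ 0) {b c t s : R} (h : Good σ k b c t)
    (hs : s * s = 1) (hsc : s * c = c * s) (hst : s * t * s = t * s * t) :
    nxt σ k b s * s = σ • nxt σ k b s := by
  have h1 : k • (b * s * b * s) = b + (k - 1) • (b * s * t * c) := by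
    have e0 : k • (b * s * b * s) = b * s * (k • b) * s := by
      rw [mul_smul_comm, smul_mul_assoc]
    have e1 : b * s * c * s = b := by
      rw [mul_assoc b s c, hsc, ← mul_assoc, h.bc, mul_assoc, hs, mul_one]
    have e2 : b * s * (c * t * c) * s = σ • (b * s * t * c) := by
      calc b * s * (c * t * c) * s = b * (s * c) * t * (c * s) := by noncomm_ring
        _ = b * (c * s) * t * (s * c) := by rw [hsc]
        _ = b * c * (s * t * s) * c := by noncomm_ring
        _ = b * (t * s * t) * c := by rw [h.bc, hst]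
        _ = b * t * s * t * c := by noncomm_ring
        _ = σ • (b * s * t * c) := by
          rw [h.bt]
          simp only [smul_mul_assoc]
    rw [e0, h.kb, mul_add, add_mul, e1, mul_smul_comm, smul_mul_assoc, e2, smul_smul]
    congr 2
    linear_combination (k - 1) * hσ
  have h2 : k • (b * s * b) = b * s + (σ * (k - 1)) • (b * s * t * c) := by
    have e0 : k • (b * s * b) = b * s * (k • b) := by rw [mul_smul_comm]
    have e1 : b * s * c = b * s := by
      rw [mul_assoc b s c, hsc, ← mul_assoc, h.bc]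
    have e2 : b * s * (c * t * c) = b * s * t * c := by
      calc b * s * (c * t * c) = b * s * c * t * c := by noncomm_ring
        _ = b * s * t * c := by rw [e1]
    rw [e0, h.kb, mul_add, e1, mul_smul_comm, e2]
  apply cancel hk
  have e4 : (k + 1) • (nxt σ k b s * s) = b * s + σ • (k • (b * s * b * s)) := by
    rw [← smul_mul_assoc, nxt_smul hk, add_mul, smul_mul_assoc, mul_smul]
  have e5 : (k + 1) • (σ • nxt σ k b s) = σ • b + (σ * σ) • (k • (b * s * b)) := by
    rw [smul_comm (k + 1) σ, nxt_smul hk, smul_add, smul_smul, smul_smul, mul_assoc σ σ k]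
  rw [e4, e5, h1, h2, hσ, one_smul]
  module

theorem Good.next {σ k : ℚ} (hσ : σ * σ = 1) (hk : k + 1 ≠ 0) {b c t s : R} (h : Good σ k b c t)
    (hs : s * s = 1) (hsc : s * c = c * s) (hst : s * t * s = t * s * t) :
    Good σ (k + 1) (nxt σ k b s) b s where
  bb := by
    have h1 := nxt_s hσ hk h hs hsc hst
    have h2 : nxt σ k b s * (b * s * b) = σ • nxt σ k b s := by
      rw [← mul_assoc, ← mul_assoc, nxt_mul h.bb, h1, smul_mul_assoc, nxt_mul h.bb]
    apply cancel hk
    have h3 : nxt σ k b s * ((k + 1) • nxt σ k b s) = nxt σ k b s + k • nxt σ k b s := by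
      rw [nxt_smul hk, mul_add, mul_smul_comm, nxt_mul h.bb, h2, smul_smul]
      congr 2
      linear_combination k * hσ
    rw [← mul_smul_comm, h3, add_smul, one_smul, add_comm]
  cb := mul_nxt h.bb
  bc := nxt_mul h.bb
  bt := nxt_s hσ hk h hs hsc hst
  kb := by
    rw [nxt_smul hk, add_sub_cancel_right]

end NCEuler
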