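import Mathlib
import Pool.Agent.Lib_MP_8f22fa_eul.Young

/-!
# Tensor powers, the exchange of the last two factors, Young (anti)symmetrisers
-/

set_option autoImplicit false

open CategoryTheory MonoidalCategory

universe v₁ u₁

namespace NCEuler

section Defs

variable {C : Type u₁} [Category.{v₁} C] [MonoidalCategory C]

/-- Tensor powers of an object. -/
def tpow (X : C) : ℕ → C
  | 0 => 𝟙_ C
  | n + 1 => tpow X n ⊗ X

/-- Tensor powers of an endomorphism. -/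
def tmap {X : C} (f : X ⟶ X) : (n : ℕ) → (tpow X n ⟶ tpow X n)
  | 0 => 𝟙 (𝟙_ C)
  | n + 1 => tmap f n ⊗ₘ f

variable [BraidedCategory C]

/-- The exchange of the last two factors. -/
def sw (U X : C) : (U ⊗ X) ⊗ X ⟶ (U ⊗ X) ⊗ X :=
  (α_ U X X).hom ≫ U ◁ (β_ X X).hom ≫ (α_ U X X).inv

end Defs

section Rel

variable {C : Type u₁} [Category.{v₁} C] [MonoidalCategory C]

theorem sw_whisker [BraidedCategory C] {U U' : C} (f : U ⟶ U') (X : C) :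
    f ▷ X ▷ X ≫ sw U' X = sw U X ≫ f ▷ X ▷ X := by
  simp only [sw, Category.assoc]
  rw [associator_naturality_left_assoc, ← whisker_exchange_assoc, associator_inv_naturality_left]

theorem sw_tensor [BraidedCategory C] {U U' X X' : C} (f : U ⟶ U') (g : X ⟶ X') :
    ((f ⊗ₘ g) ⊗ₘ g) ≫ sw U' X' = sw U X ≫ ((f ⊗ₘ g) ⊗ₘ g) := by
  have h1 : (f ⊗ₘ (g ⊗ₘ g)) ≫ U' ◁ (β_ X' X').hom = U ◁ (β_ X X).hom ≫ (f ⊗ₘ (g ⊗ₘ g)) := by
    rw [← id_tensorHom, ← id_tensorHom, tensorHom_comp_tensorHom, tensorHom_comp_tensorHom,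
      Category.comp_id, Category.id_comp, BraidedCategory.braiding_naturality]
  simp only [sw, Category.assoc]
  rw [associator_naturality_assoc, reassoc_of% h1, associator_inv_naturality]

theorem sw_sw [SymmetricCategory C] (U X : C) : sw U X ≫ sw U X = 𝟙 _ := by
  simp only [sw, Category.assoc]
  rw [Iso.inv_hom_id_assoc, ← MonoidalCategory.whiskerLeft_comp_assoc, SymmetricCategory.symmetry,
    MonoidalCategory.whiskerLeft_id, Category.id_comp, Iso.hom_inv_id]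

theorem sw_braid [BraidedCategory C] (U X : C) :
    sw U X ▷ X ≫ sw (U ⊗ X) X ≫ sw U X ▷ X = sw (U ⊗ X) X ≫ sw U X ▷ X ≫ sw (U ⊗ X) X := by
  have h := congrArg (fun f => U ◁ f) (BraidedCategory.yang_baxter X X X)
  have e1 : sw U X ▷ X ≫ sw (U ⊗ X) X ≫ sw U X ▷ X =
      (α_ (U ⊗ X) X X).hom ≫ (α_ U X (X ⊗ X)).hom ≫ (U ◁ ((α_ X X X).inv ≫ (β_ X X).hom ▷ X ≫
        (α_ X X X).hom ≫ X ◁ (β_ X X).hom ≫ (α_ X X X).inv ≫ (β_ X X).hom ▷ X ≫ (α_ X X X).hom)) ≫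
        (α_ U X (X ⊗ X)).inv ≫ (α_ (U ⊗ X) X X).inv := by
    simp only [sw]
    monoidal
  have e2 : sw (U ⊗ X) X ≫ sw U X ▷ X ≫ sw (U ⊗ X) X =
      (α_ (U ⊗ X) X X).hom ≫ (α_ U X (X ⊗ X)).hom ≫ (U ◁ (X ◁ (β_ X X).hom ≫ (α_ X X X).inv ≫
        (β_ X X).hom ▷ X ≫ (α_ X X X).hom ≫ X ◁ (β_ X X).hom)) ≫
        (α_ U X (X ⊗ X)).inv ≫ (α_ (U ⊗ X) X X).inv := by
    simp only [sw]
    monoidal
  rw [e1, e2]
  exact congrArg (fun f => (α_ (U ⊗ X) X X).hom ≫ (α_ U X (X ⊗ X)).hom ≫ f ≫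
    (α_ U X (X ⊗ X)).inv ≫ (α_ (U ⊗ X) X X).inv) h

end Rel

end NCEuler
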