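import Mathlib
import Pool.Agent.Lib_MP_8f22fa_eul.Pow

/-!
# Young (anti)symmetrisers of tensor powers
-/

set_option autoImplicit false

open CategoryTheory MonoidalCategory

universe v₁ u₁

namespace NCEuler

section Ring

variable {R : Type*} [Ring R] [Algebra ℚ R]

theorem good_base {σ : ℚ} (hσ : σ * σ = 1) {s : R}
    (hs : s * s = 1) : Good σ (((0 : ℕ) : ℚ) + 1 + 1) (nxt σ (((0 : ℕ) : ℚ) + 1) 1 s) 1 s := by
  have h3 : nxt σ (((0 : ℕ) : ℚ) + 1) 1 s = (2 : ℚ)⁻¹ • (1 + σ • s) := by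
    rw [nxt, one_mul, mul_one, Nat.cast_zero, zero_add, mul_one, one_add_one_eq_two]
  have h4 : (2 : ℚ)⁻¹ • (1 + σ • s) * s = σ • ((2 : ℚ)⁻¹ • (1 + σ • s)) := by
    rw [smul_mul_assoc, add_mul, one_mul, smul_mul_assoc, hs, smul_comm σ, smul_add, smul_add,
      smul_add, smul_smul σ σ, hσ, one_smul, add_comm]
  rw [h3]
  refine ⟨?_, one_mul _, mul_one _, h4, ?_⟩
  · have h5 : (2 : ℚ)⁻¹ • (1 + σ • s) * ((2 : ℚ)⁻¹ • (1 + σ • s)) =
        (2 : ℚ)⁻¹ • ((2 : ℚ)⁻¹ • (1 + σ • s) + σ • ((2 : ℚ)⁻¹ • (1 + σ • s) * s)) := by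
      rw [mul_smul_comm, mul_add, mul_one, mul_smul_comm]
    rw [h5, h4, smul_smul σ σ, hσ, one_smul, ← two_smul ℚ, smul_smul]
    norm_num
  · rw [one_mul, mul_one, smul_smul]
    norm_num

theorem nxt_comm {σ k : ℚ} {b s P : R} (hb : b * P = P * b) (hs : s * P = P * s) :
    nxt σ k b s * P = P * nxt σ k b s := by
  rw [nxt, smul_mul_assoc, mul_smul_comm, add_mul, mul_add, smul_mul_assoc, mul_smul_comm, hb]
  congr 3
  rw [mul_assoc, hb, ← mul_assoc, mul_assoc b s P, hs, ← mul_assoc, hb, mul_assoc, mul_assoc,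
    mul_assoc]

theorem Good.map {S : Type*} [Ring S] [Algebra ℚ S] {σ k : ℚ} {b c t : R}
    (h : Good σ k b c t) (φ : R → S) (hm : ∀ x y, φ (x * y) = φ x * φ y)
    (ha : ∀ x y, φ (x + y) = φ x + φ y) (hs : ∀ (q : ℚ) x, φ (q • x) = q • φ x) :
    Good σ k (φ b) (φ c) (φ t) where
  bb := by rw [← hm, h.bb]
  cb := by rw [← hm, h.cb]
  bc := by rw [← hm, h.bc]
  bt := by rw [← hm, h.bt, hs]
  kb := by rw [← hs, h.kb, ha, hs, hm, hm]

end Ring

variable {C : Type u₁} [Category.{v₁} C] [MonoidalCategory C]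

/-- Adding a factor. -/
def wr (X : C) (n : ℕ) (f : End (tpow X n)) : End (tpow X (n + 1)) :=
  (show tpow X n ⟶ tpow X n from f) ▷ X

theorem wr_mul (X : C) (n : ℕ) (f g : End (tpow X n)) : wr X n (f * g) = wr X n f * wr X n g :=
  comp_whiskerRight g f X

theorem wr_one (X : C) (n : ℕ) : wr X n 1 = 1 := id_whiskerRight _ X

/-- The tensor power of an endomorphism. -/
def tE {X : C} (f : X ⟶ X) (n : ℕ) : End (tpow X n) := tmap f n

theorem wr_tE {X : C} (f : X ⟶ X) (n : ℕ) (a : End (tpow X n)) (h : a * tE f n = tE f n * a) :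
    wr X n a * tE f (n + 1) = tE f (n + 1) * wr X n a := by
  have h' : tmap f n ≫ (show tpow X n ⟶ tpow X n from a) = (show tpow X n ⟶ tpow X n from a) ≫ tmap f n :=
    h
  change (tmap f n ⊗ₘ f) ≫ ((show tpow X n ⟶ tpow X n from a) ▷ X) =
    ((show tpow X n ⟶ tpow X n from a) ▷ X) ≫ (tmap f n ⊗ₘ f)
  rw [← tensorHom_id, tensorHom_comp_tensorHom, tensorHom_comp_tensorHom, h', Category.id_comp,
    Category.comp_id]

section Sym

variable [SymmetricCategory C]

/-- The exchange of the last two factors, as an endomorphism. -/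
def swE (X : C) (n : ℕ) : End (tpow X (n + 2)) := sw (tpow X n) X

theorem swE_swE (X : C) (n : ℕ) : swE X n * swE X n = 1 := sw_sw (tpow X n) X

theorem swE_wr (X : C) (n : ℕ) (a : End (tpow X n)) :
    swE X n * wr X (n + 1) (wr X n a) = wr X (n + 1) (wr X n a) * swE X n :=
  sw_whisker (show tpow X n ⟶ tpow X n from a) X

theorem swE_braid (X : C) (n : ℕ) :
    swE X (n + 1) * wr X (n + 2) (swE X n) * swE X (n + 1) =
      wr X (n + 2) (swE X n) * swE X (n + 1) * wr X (n + 2) (swE X n) :=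
  (sw_braid (tpow X n) X).symm

theorem swE_tE {X : C} (f : X ⟶ X) (n : ℕ) : swE X n * tE f (n + 2) = tE f (n + 2) * swE X n :=
  sw_tensor (tmap f n) f

end Sym

variable [Preadditive C] [Linear ℚ C]

section WR

variable [MonoidalPreadditive C]

omit [Linear ℚ C] in
theorem wr_add (X : C) (n : ℕ) (f g : End (tpow X n)) : wr X n (f + g) = wr X n f + wr X n g :=
  MonoidalPreadditive.add_whiskerRight f g

theorem wr_smul (X : C) (n : ℕ) (q : ℚ) (f : End (tpow X n)) : wr X n (q • f) = q • wr X n f := by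
  let φ : End (tpow X n) →+ End (tpow X (n + 1)) :=
    { toFun := wr X n
      map_zero' := by
        have := wr_add X n 0 0
        rw [add_zero] at this
        exact left_eq_add.mp this
      map_add' := wr_add X n }
  exact map_rat_smul φ q f

end WR

variable [SymmetricCategory C]

/-- The Young symmetriser (`σ = 1`) or antisymmetriser (`σ = -1`) of a tensor power. -/
noncomputable def ysym (σ : ℚ) (X : C) : (n : ℕ) → End (tpow X n)
  | 0 => 1
  | 1 => 1
  | n + 2 => nxt σ ((n : ℚ) + 1) (wr X (n + 1) (ysym σ X (n + 1))) (swE X n)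

/-- The symmetrisers commute with tensor powers of endomorphisms. -/
theorem ysym_tE (σ : ℚ) {X : C} (f : X ⟶ X) (n : ℕ) :
    ysym σ X n * tE f n = tE f n * ysym σ X n := by
  match n with
  | 0 => rw [ysym, one_mul, mul_one]
  | 1 => rw [ysym, one_mul, mul_one]
  | n + 2 =>
    rw [ysym]
    exact nxt_comm (wr_tE f (n + 1) _ (ysym_tE σ f (n + 1))) (swE_tE f n)

variable [MonoidalPreadditive C]

theorem ysym_good {σ : ℚ} (hσ : σ * σ = 1) (X : C) (n : ℕ) :
    Good σ ((n : ℚ) + 1 + 1) (ysym σ X (n + 2)) (wr X (n + 1) (ysym σ X (n + 1))) (swE X n) := by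
  induction n with
  | zero =>
    have h1 : wr X (0 + 1) (ysym σ X (0 + 1)) = 1 := wr_one _ _
    change Good σ _ (nxt σ (((0 : ℕ) : ℚ) + 1) (wr X (0 + 1) (ysym σ X (0 + 1))) (swE X 0))
      (wr X (0 + 1) (ysym σ X (0 + 1))) (swE X 0)
    rw [h1]
    exact good_base hσ (swE_swE X 0)
  | succ n ih =>
    have h1 := ih.map (wr X (n + 2)) (wr_mul X _) (wr_add X _) (wr_smul X _)
    have hk : ((n + 1 : ℕ) : ℚ) + 1 = (n : ℚ) + 1 + 1 := by push_cast; ring
    have h2 := h1.next hσ (by positivity) (swE_swE X (n + 1)) (swE_wr X (n + 1) _) (swE_braid X n)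
    have h3 : ysym σ X (n + 1 + 2) = nxt σ (((n + 1 : ℕ) : ℚ) + 1) (wr X (n + 2) (ysym σ X (n + 2)))
        (swE X (n + 1)) := rfl
    rw [h3, hk]
    exact h2

theorem ysym_idem {σ : ℚ} (hσ : σ * σ = 1) (X : C) (n : ℕ) :
    ysym σ X n * ysym σ X n = ysym σ X n := by
  match n with
  | 0 => exact one_mul _
  | 1 => exact one_mul _
  | n + 2 => exact (ysym_good hσ X n).bb

end NCEuler
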