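import Mathlib

/-!
# The trace of a product with the (Koszul) exchange of two factors
-/

set_option autoImplicit false

open TensorProduct

namespace NCEuler

section Lin

variable {K : Type*} [Field K] {U V : Type*} [AddCommGroup U] [Module K U] [AddCommGroup V]
  [Module K V] [FiniteDimensional K U] [FiniteDimensional K V]

/-- The exchange of two factors. -/
noncomputable def cm (V : Type*) [AddCommGroup V] [Module K V] : V ⊗[K] V →ₗ[K] V ⊗[K] V :=
  (TensorProduct.comm K V V).toLinearMap

theorem trace_cm (y b : V →ₗ[K] V) :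
    LinearMap.trace K (V ⊗[K] V) (cm V ∘ₗ TensorProduct.map y b) = LinearMap.trace K V (b ∘ₗ y) := by
  classical
  let B := Module.finBasis K V
  rw [LinearMap.trace_eq_matrix_trace K (B.tensorProduct B), LinearMap.trace_eq_matrix_trace K B,
    LinearMap.toMatrix_comp B B B, Matrix.trace, Matrix.trace]
  simp only [Matrix.diag_apply, Matrix.mul_apply]
  rw [Fintype.sum_prod_type]
  refine Finset.sum_congr rfl fun i _ => Finset.sum_congr rfl fun j _ => ?_
  rw [LinearMap.toMatrix_apply, LinearMap.toMatrix_apply, LinearMap.toMatrix_apply]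
  rw [Module.Basis.tensorProduct_apply]
  simp [cm, mul_comm]

/-- The Koszul sign operator. -/
noncomputable def ks (p : V →ₗ[K] V) : V ⊗[K] V →ₗ[K] V ⊗[K] V :=
  (2⁻¹ : K) • (LinearMap.id + TensorProduct.map p LinearMap.id + TensorProduct.map LinearMap.id p
    - TensorProduct.map p p)

variable [CharZero K]

theorem trace_ks {p y b : V →ₗ[K] V} (hp : p ∘ₗ p = LinearMap.id) (hb : b ∘ₗ p = p ∘ₗ b) :
    LinearMap.trace K (V ⊗[K] V) (TensorProduct.map p p ∘ₗ (cm V ∘ₗ ks p) ∘ₗ TensorProduct.map y b) =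
      LinearMap.trace K V (p ∘ₗ b ∘ₗ y) := by
  have h0 : TensorProduct.map p p ∘ₗ cm V = cm V ∘ₗ TensorProduct.map p p := by
    apply TensorProduct.ext'
    intro x y
    simp [cm]
  have h1 : TensorProduct.map p p ∘ₗ (cm V ∘ₗ ks p) ∘ₗ TensorProduct.map y b =
      (2⁻¹ : K) • (cm V ∘ₗ TensorProduct.map (p ∘ₗ y) (p ∘ₗ b) + cm V ∘ₗ TensorProduct.map y (p ∘ₗ b) +
        cm V ∘ₗ TensorProduct.map (p ∘ₗ y) b - cm V ∘ₗ TensorProduct.map y b) := by
    rw [← LinearMap.comp_assoc, ← LinearMap.comp_assoc, h0]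
    have hpp : ∀ x, p (p x) = x := fun x => by
      have := congrArg (fun f => f x) hp
      simpa using this
    apply TensorProduct.ext'
    intro u v
    simp [cm, ks, hpp, smul_add, smul_sub]
  have e1 : LinearMap.trace K V ((p ∘ₗ b) ∘ₗ (p ∘ₗ y)) = LinearMap.trace K V (b ∘ₗ y) := by
    congr 1
    rw [← hb, LinearMap.comp_assoc, ← LinearMap.comp_assoc y p p, hp, LinearMap.id_comp]
  have e2 : LinearMap.trace K V (b ∘ₗ (p ∘ₗ y)) = LinearMap.trace K V (p ∘ₗ b ∘ₗ y) := by
    congr 1
    rw [← LinearMap.comp_assoc, hb, LinearMap.comp_assoc]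
  rw [h1, map_smul, map_sub, map_add, map_add, trace_cm, trace_cm, trace_cm, trace_cm, e1, e2,
    LinearMap.comp_assoc]
  have h2 : (2 : K) ≠ 0 := two_ne_zero
  rw [smul_eq_mul]
  field_simp
  ring

/-- The exchange of the last two factors. -/
noncomputable def sl (U : Type*) [AddCommGroup U] [Module K U] (p : V →ₗ[K] V) :
    (U ⊗[K] V) ⊗[K] V →ₗ[K] (U ⊗[K] V) ⊗[K] V :=
  (TensorProduct.assoc K U V V).symm.toLinearMap ∘ₗ LinearMap.lTensor U (cm V ∘ₗ ks p) ∘ₗ
    (TensorProduct.assoc K U V V).toLinearMap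

theorem trace_sl {pU : U →ₗ[K] U} {p b : V →ₗ[K] V} (hp : p ∘ₗ p = LinearMap.id)
    (hb : b ∘ₗ p = p ∘ₗ b) (a : U ⊗[K] V →ₗ[K] U ⊗[K] V) :
    LinearMap.trace K ((U ⊗[K] V) ⊗[K] V) (TensorProduct.map (TensorProduct.map pU p) p ∘ₗ
      sl U p ∘ₗ TensorProduct.map a b) =
      LinearMap.trace K (U ⊗[K] V) (TensorProduct.map pU p ∘ₗ LinearMap.lTensor U b ∘ₗ a) := by
  obtain ⟨t, rfl⟩ := (homTensorHomEquiv K U V U V).surjective a
  induction t using TensorProduct.induction_on with
  | zero =>
    rw [map_zero, TensorProduct.map_zero_left, LinearMap.comp_zero, LinearMap.comp_zero,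
      LinearMap.comp_zero, LinearMap.comp_zero, map_zero, map_zero]
  | add s t hs ht =>
    rw [map_add, TensorProduct.map_add_left, LinearMap.comp_add, LinearMap.comp_add,
      LinearMap.comp_add, LinearMap.comp_add, map_add, map_add, hs, ht]
  | tmul x y =>
    rw [homTensorHomEquiv_apply, homTensorHomMap_apply]
    have h1 : TensorProduct.map (TensorProduct.map pU p) p ∘ₗ sl U p ∘ₗ
        TensorProduct.map (TensorProduct.map x y) b =
        (TensorProduct.assoc K U V V).symm.toLinearMap ∘ₗ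
          (TensorProduct.map (pU ∘ₗ x) (TensorProduct.map p p ∘ₗ (cm V ∘ₗ ks p) ∘ₗ
            TensorProduct.map y b) ∘ₗ (TensorProduct.assoc K U V V).toLinearMap) := by
      have a1 : TensorProduct.map (TensorProduct.map pU p) p ∘ₗ
          (TensorProduct.assoc K U V V).symm.toLinearMap =
          (TensorProduct.assoc K U V V).symm.toLinearMap ∘ₗ
            TensorProduct.map pU (TensorProduct.map p p) := by
        apply TensorProduct.ext_threefold'
        intro u v w
        simp
      have a2 : (TensorProduct.assoc K U V V).toLinearMap ∘ₗ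
          TensorProduct.map (TensorProduct.map x y) b =
          TensorProduct.map x (TensorProduct.map y b) ∘ₗ
            (TensorProduct.assoc K U V V).toLinearMap := by
        apply TensorProduct.ext_threefold
        intro u v w
        simp
      have a3 : TensorProduct.map pU (TensorProduct.map p p) ∘ₗ
          (LinearMap.lTensor U (cm V ∘ₗ ks p) ∘ₗ TensorProduct.map x (TensorProduct.map y b)) =
          TensorProduct.map (pU ∘ₗ x) (TensorProduct.map p p ∘ₗ (cm V ∘ₗ ks p) ∘ₗ
            TensorProduct.map y b) := by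
        rw [LinearMap.lTensor, ← TensorProduct.map_comp, ← TensorProduct.map_comp,
          LinearMap.id_comp]
      rw [← a3, sl, LinearMap.comp_assoc, LinearMap.comp_assoc, a2, ← LinearMap.comp_assoc, a1]
      rfl
    have h2 : TensorProduct.map pU p ∘ₗ LinearMap.lTensor U b ∘ₗ TensorProduct.map x y =
        TensorProduct.map (pU ∘ₗ x) (p ∘ₗ b ∘ₗ y) := by
      rw [LinearMap.lTensor, ← TensorProduct.map_comp, ← TensorProduct.map_comp,
        LinearMap.id_comp]
    rw [h1, h2, LinearMap.trace_comp_comm', LinearMap.comp_assoc, LinearEquiv.comp_coe,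
      LinearEquiv.symm_trans_self, LinearEquiv.refl_toLinearMap, LinearMap.comp_id,
      LinearMap.trace_tensorProduct', LinearMap.trace_tensorProduct', trace_ks hp hb]

omit [FiniteDimensional K U] [FiniteDimensional K V] in
/-- `v ⊗ v` is multiplied by `±1` by the Koszul symmetry. -/
theorem sl_vec {p : V →ₗ[K] V} (w : U) (v : V) (s : K) (hs : s * s = 1) (hv : p v = s • v) :
    sl U p ((w ⊗ₜ[K] v) ⊗ₜ[K] v) = s • ((w ⊗ₜ[K] v) ⊗ₜ[K] v) := by
  rw [sl, LinearMap.comp_apply, LinearMap.comp_apply, LinearEquiv.coe_coe,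
    LinearEquiv.coe_coe, TensorProduct.assoc_tmul, LinearMap.lTensor_tmul]
  have h : (cm V ∘ₗ ks p) (v ⊗ₜ[K] v) = s • (v ⊗ₜ[K] v) := by
    have h2 : (2 : K) ≠ 0 := two_ne_zero
    simp only [cm, ks, LinearMap.comp_apply, LinearMap.smul_apply, LinearMap.sub_apply,
      LinearMap.add_apply, LinearMap.id_apply, TensorProduct.map_tmul, hv, map_smul, map_sub,
      map_add, LinearEquiv.coe_coe, TensorProduct.comm_tmul, TensorProduct.tmul_smul,
      TensorProduct.smul_tmul', smul_smul, hs, one_smul]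
    have e : (v ⊗ₜ[K] v + s • v ⊗ₜ[K] v + s • v ⊗ₜ[K] v - v ⊗ₜ[K] v : V ⊗[K] V) =
        (2 * s) • (v ⊗ₜ[K] v) := by module
    rw [← TensorProduct.smul_tmul', e, smul_smul, ← mul_assoc, inv_mul_cancel₀ h2, one_mul]
  rw [h, TensorProduct.tmul_smul, map_smul, TensorProduct.assoc_symm_tmul]

end Lin

end NCEuler
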