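import Mathlib
import Pool.Agent.Lib_MP_8f22fa_ag.Lift
import Pool.Agent.Lib_MP_8f22fa_eul.Sym
import Pool.Agent.Lib_MP_8f22fa_eul.Tr

/-!
# Supertraces of tensor powers and of products with the exchange of two factors
-/

set_option autoImplicit false

open CategoryTheory MonoidalCategory Functor.LaxMonoidal Functor.OplaxMonoidal Functor.Monoidal
open NCSign SVect

universe u v₁ u₁

namespace NCEuler

section SV

variable {K : Type u} [Field K]

/-- The supertrace. -/
noncomputable def str {M : SVect K} (f : M ⟶ M) : K :=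
  LinearMap.trace K M.V ((M.par.hom : Module.End K M.V) * (lin f : Module.End K M.V))

theorem str_comm {M N : SVect K} [Module.Finite K M.V] [Module.Finite K N.V] (f : M ⟶ N)
    (g : N ⟶ M) : str (f ≫ g) = str (g ≫ f) := by
  have h1 : (M.par.hom : Module.End K M.V) * (lin (f ≫ g) : Module.End K M.V) =
      lin g ∘ₗ (N.par.hom ∘ₗ lin f) := by
    ext v
    exact (comm_apply g _).symm
  have h2 : (N.par.hom : Module.End K N.V) * (lin (g ≫ f) : Module.End K N.V) =
      (N.par.hom ∘ₗ lin f) ∘ₗ lin g := rfl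
  rw [str, str, h1, h2, LinearMap.trace_comp_comm']

theorem str_add {M : SVect K} (f g : M ⟶ M) : str (f + g) = str f + str g := by
  rw [str, str, str, ← map_add, ← mul_add]
  rfl

theorem str_tensor {M N : SVect K} [Module.Finite K M.V] [Module.Finite K N.V] (a : M ⟶ M)
    (b : N ⟶ N) : str (a ⊗ₘ b) = str a * str b := by
  have h := LinearMap.trace_tensorProduct' (R := K) (M := M.V) (N := N.V)
    ((M.par.hom : Module.End K M.V) * (lin a : Module.End K M.V))
    ((N.par.hom : Module.End K N.V) * (lin b : Module.End K N.V))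
  rw [str, str, str, ← h]
  congr 1
  exact (TensorProduct.map_comp _ _ _ _).symm

variable [CharZero K]

theorem lin_sw (U M : SVect K) : lin (sw U M) = sl U.V M.par.hom := rfl

theorem str_sw {U M : SVect K} [Module.Finite K U.V] [Module.Finite K M.V] (a : U ⊗ M ⟶ U ⊗ M)
    (b : M ⟶ M) : str ((a ⊗ₘ b) ≫ sw U M) = str (a ≫ U ◁ b) := by
  have hp : M.par.hom ∘ₗ M.par.hom = LinearMap.id := by
    ext v
    exact par_par M v
  have hb : lin b ∘ₗ M.par.hom = M.par.hom ∘ₗ lin b := by
    ext v
    exact comm_apply b v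
  exact trace_sl (K := K) (U := U.V) (V := M.V) (pU := U.par.hom) hp hb (lin a)

/-- `v ⊗ v` is multiplied by `±1` by the Koszul symmetry. -/
theorem sw_vec {U M : SVect K} (w : U.V) (v : M.V) (s : K) (hs : s * s = 1)
    (hv : M.par.hom v = s • v) :
    sl U.V M.par.hom ((w ⊗ₜ[K] v : TensorProduct K U.V M.V) ⊗ₜ[K] v) =
      s • ((w ⊗ₜ[K] v : TensorProduct K U.V M.V) ⊗ₜ[K] v) := by
  exact sl_vec (U := U.V) (V := M.V) w v s hs hv

end SV

end NCEuler
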