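import Mathlib
import Pool.Agent.Lib_MP_8f22fa_eul.Super

/-!
# Supertraces after a symmetric monoidal functor
-/

set_option autoImplicit false

open CategoryTheory MonoidalCategory Functor.LaxMonoidal Functor.OplaxMonoidal Functor.Monoidal
open NCSign SVect

universe u v₁ u₁

namespace NCEuler

variable {C : Type u₁} [Category.{v₁} C] [MonoidalCategory C] [SymmetricCategory C]
variable {K : Type u} [Field K] [CharZero K] (F : C ⥤ SVect K) [F.Braided]

theorem map_sw (U X : C) : F.map (sw U X) = δ F (U ⊗ X) X ≫ δ F U X ▷ F.obj X ≫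
    sw (F.obj U) (F.obj X) ≫ μ F U X ▷ F.obj X ≫ μ F (U ⊗ X) X := by
  simp only [sw, Functor.map_comp, map_associator, map_associator_inv, map_whiskerLeft,
    Functor.map_braiding, Category.assoc, μ_δ_assoc, whiskerLeft_μ_δ_assoc,
    MonoidalCategory.whiskerLeft_comp]

variable [Preadditive C]

theorem strF_comm {X Y : C} [HasRightDual X] [HasRightDual Y] (f : X ⟶ Y) (g : Y ⟶ X) :
    str (F.map (f ≫ g)) = str (F.map (g ≫ f)) := by
  have := map_finite F X
  have := map_finite F Y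
  rw [F.map_comp, F.map_comp, str_comm]

theorem strF_tensor {X Y : C} [HasRightDual X] [HasRightDual Y] (a : X ⟶ X) (b : Y ⟶ Y) :
    str (F.map (a ⊗ₘ b)) = str (F.map a) * str (F.map b) := by
  have := map_finite F X
  have := map_finite F Y
  have h3 : Module.Finite K (F.obj X ⊗ F.obj Y).V :=
    inferInstanceAs (Module.Finite K (TensorProduct K (F.obj X).V (F.obj Y).V))
  have h4 : Module.Finite K (F.obj (X ⊗ Y)).V :=
    Module.Finite.of_surjective (lin (μ F X Y)) (by
      intro v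
      refine ⟨lin (δ F X Y) v, ?_⟩
      have := congrArg (fun f => lin f v) (δ_μ F X Y)
      exact this)
  rw [map_tensor, str_comm, Category.assoc, μ_δ, Category.comp_id, str_tensor]

theorem strF_sw {U X : C} [HasRightDual U] [HasRightDual X] (a : U ⊗ X ⟶ U ⊗ X) (b : X ⟶ X) :
    str (F.map ((a ⊗ₘ b) ≫ sw U X)) = str (F.map (a ≫ U ◁ b)) := by
  have f1 := map_finite F U
  have f2 := map_finite F X
  have f3 : Module.Finite K (F.obj U ⊗ F.obj X).V :=
    inferInstanceAs (Module.Finite K (TensorProduct K (F.obj U).V (F.obj X).V))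
  have f4 : Module.Finite K (F.obj (U ⊗ X)).V :=
    Module.Finite.of_surjective (lin (μ F U X)) (by
      intro v
      refine ⟨lin (δ F U X) v, ?_⟩
      have := congrArg (fun f => lin f v) (δ_μ F U X)
      exact this)
  have f5 : Module.Finite K ((F.obj U ⊗ F.obj X) ⊗ F.obj X).V :=
    inferInstanceAs (Module.Finite K (TensorProduct K (F.obj U ⊗ F.obj X).V (F.obj X).V))
  have f6 : Module.Finite K (F.obj (U ⊗ X) ⊗ F.obj X).V :=
    inferInstanceAs (Module.Finite K (TensorProduct K (F.obj (U ⊗ X)).V (F.obj X).V))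
  have f7 : Module.Finite K (F.obj ((U ⊗ X) ⊗ X)).V :=
    Module.Finite.of_surjective (lin (μ F (U ⊗ X) X)) (by
      intro v
      refine ⟨lin (δ F (U ⊗ X) X) v, ?_⟩
      have := congrArg (fun f => lin f v) (δ_μ F (U ⊗ X) X)
      exact this)
  have e1 : F.map ((a ⊗ₘ b) ≫ sw U X) = (δ F (U ⊗ X) X ≫ (F.map a ⊗ₘ F.map b) ≫
      δ F U X ▷ F.obj X ≫ sw (F.obj U) (F.obj X) ≫ μ F U X ▷ F.obj X) ≫ μ F (U ⊗ X) X := by
    simp only [F.map_comp, map_tensor, map_sw, Category.assoc, μ_δ_assoc]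
  have e2 : μ F (U ⊗ X) X ≫ δ F (U ⊗ X) X ≫ (F.map a ⊗ₘ F.map b) ≫
      δ F U X ▷ F.obj X ≫ sw (F.obj U) (F.obj X) ≫ μ F U X ▷ F.obj X =
      ((F.map a ⊗ₘ F.map b) ≫ δ F U X ▷ F.obj X ≫ sw (F.obj U) (F.obj X)) ≫ μ F U X ▷ F.obj X := by
    simp only [Category.assoc, μ_δ_assoc]
  have e3 : μ F U X ▷ F.obj X ≫ (F.map a ⊗ₘ F.map b) ≫ δ F U X ▷ F.obj X ≫
      sw (F.obj U) (F.obj X) = ((μ F U X ≫ F.map a ≫ δ F U X) ⊗ₘ F.map b) ≫
        sw (F.obj U) (F.obj X) := by
    simp only [MonoidalCategory.tensorHom_def, MonoidalCategory.comp_whiskerRight, Category.assoc,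
      MonoidalCategory.whisker_exchange_assoc]
  rw [e1, str_comm, e2, str_comm, e3, str_sw]
  have e4 : (μ F U X ≫ F.map a ≫ δ F U X) ≫ F.obj U ◁ F.map b =
      μ F U X ≫ (F.map a ≫ δ F U X ≫ F.obj U ◁ F.map b) := by
    simp only [Category.assoc]
  have e5 : F.map (a ≫ U ◁ b) = (F.map a ≫ δ F U X ≫ F.obj U ◁ F.map b) ≫ μ F U X := by
    simp only [F.map_comp, map_whiskerLeft, Category.assoc]
  rw [e4, e5, str_comm]

end NCEuler
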