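import Mathlib
import Pool.Agent.Lib_MP_8f22fa_eul.FTr

/-!
# The supertraces of the Young (anti)symmetrisers
-/

set_option autoImplicit false

open CategoryTheory MonoidalCategory Functor.LaxMonoidal Functor.OplaxMonoidal Functor.Monoidal
open NCSign SVect

universe u v₁ u₁

namespace NCEuler

section TM

variable {C : Type u₁} [Category.{v₁} C] [MonoidalCategory C]

theorem tmap_comp {X : C} (f g : X ⟶ X) (n : ℕ) : tmap f n ≫ tmap g n = tmap (f ≫ g) n := by
  induction n with
  | zero => exact Category.comp_id _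
  | succ n ih =>
    change (tmap f n ⊗ₘ f) ≫ (tmap g n ⊗ₘ g) = tmap (f ≫ g) n ⊗ₘ (f ≫ g)
    rw [tensorHom_comp_tensorHom, ih]

end TM

variable {C : Type u₁} [Category.{v₁} C] [MonoidalCategory C] [SymmetricCategory C]
variable {K : Type u} [Field K] [CharZero K] (F : C ⥤ SVect K) [F.Braided]

theorem F_tensor_congr {U U' X X' : C} {f f' : U ⟶ U'}
    {g g' : X ⟶ X'} (h1 : F.map f = F.map f') (h2 : F.map g = F.map g') :
    F.map (f ⊗ₘ g) = F.map (f' ⊗ₘ g') := by
  rw [map_tensor, map_tensor, h1, h2]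

theorem F_tmap_congr {X : C} {f g : X ⟶ X} (h : F.map f = F.map g) (n : ℕ) :
    F.map (tmap f n) = F.map (tmap g n) := by
  induction n with
  | zero => rfl
  | succ n ih => exact F_tensor_congr F ih h

variable [Preadditive C] [Linear ℚ C]

/-- The Young (anti)symmetriser restricted to a summand. -/
noncomputable def zz (σ : ℚ) {X : C} (e : X ⟶ X) (n : ℕ) : tpow X n ⟶ tpow X n :=
  tmap e n ≫ (show tpow X n ⟶ tpow X n from ysym σ X n)

theorem zz_comm (σ : ℚ) {X : C} (e : X ⟶ X) (n : ℕ) :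
    zz σ e n = (show tpow X n ⟶ tpow X n from ysym σ X n) ≫ tmap e n :=
  ysym_tE σ e n

theorem zz_zz [MonoidalPreadditive C] {σ : ℚ} (hσ : σ * σ = 1) {X : C} (e : X ⟶ X) (n : ℕ) :
    zz σ e n ≫ zz σ e n = zz σ (e ≫ e) n := by
  have h1 : (show tpow X n ⟶ tpow X n from ysym σ X n) ≫
      (show tpow X n ⟶ tpow X n from ysym σ X n) =
      (show tpow X n ⟶ tpow X n from ysym σ X n) := ysym_idem hσ X n
  generalize hy : (show tpow X n ⟶ tpow X n from ysym σ X n) = y at h1
  have hc : ∀ f : X ⟶ X, tmap f n ≫ y = y ≫ tmap f n := fun f => by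
    rw [← hy]
    exact zz_comm σ f n
  have hz : ∀ f : X ⟶ X, zz σ f n = tmap f n ≫ y := fun f => by rw [← hy, zz]
  rw [hz, hz, Category.assoc, ← Category.assoc y, ← hc, Category.assoc, h1, ← Category.assoc,
    tmap_comp]

theorem F_zz_congr {X : C} {f g : X ⟶ X} (σ : ℚ) (h : F.map f = F.map g) (n : ℕ) :
    F.map (zz σ f n) = F.map (zz σ g n) := by
  rw [zz, F.map_comp, F_tmap_congr F h, ← F.map_comp, zz]

section Str

variable [F.Additive]

omit [MonoidalCategory C] [SymmetricCategory C] [F.Braided] in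
theorem strF_smul [MonoidalCategory C] [SymmetricCategory C] [F.Braided] {X : C} (q : ℚ)
    (f : X ⟶ X) : str (F.map (q • f)) = (q : K) * str (F.map f) := by
  rw [str, lin_map_rat_smul, mul_smul_comm, map_smul, smul_eq_mul, str]

theorem strF_add {X : C} (f g : X ⟶ X) : str (F.map (f + g)) = str (F.map f) + str (F.map g) := by
  rw [F.map_add, str_add]

variable [MonoidalPreadditive C] [RightRigidCategory C]

theorem str_rec {σ : ℚ} (hσ : σ * σ = 1) {X : C} (e : X ⟶ X) (he : F.map (e ≫ e) = F.map e)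
    (n : ℕ) : ((n : K) + 1 + 1) * str (F.map (zz σ e (n + 2))) =
      (str (F.map e) + σ * ((n : K) + 1)) * str (F.map (zz σ e (n + 1))) := by
  have hk : (n : ℚ) + 1 + 1 ≠ 0 := by positivity
  set B : End (tpow X (n + 2)) := wr X (n + 1) (ysym σ X (n + 1)) with hB
  have hBB : B * B = B := by rw [hB, ← wr_mul, ysym_idem hσ]
  have hBT : B * tE e (n + 2) = tE e (n + 2) * B := wr_tE e (n + 1) _ (ysym_tE σ e (n + 1))
  have h1 : ((n : ℚ) + 1 + 1) • (show tpow X (n + 2) ⟶ tpow X (n + 2) from zz σ e (n + 2)) =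
      (show tpow X (n + 2) ⟶ tpow X (n + 2) from
        (B * tE e (n + 2) + (σ * ((n : ℚ) + 1)) • (B * swE X n * B * tE e (n + 2)) :
          End (tpow X (n + 2)))) := by
    have h2 : ((n : ℚ) + 1 + 1) • (nxt σ ((n : ℚ) + 1) B (swE X n) * tE e (n + 2)) =
        B * tE e (n + 2) + (σ * ((n : ℚ) + 1)) • (B * swE X n * B * tE e (n + 2)) := by
      rw [← smul_mul_assoc, nxt_smul hk, add_mul, smul_mul_assoc]
    exact h2
  have h3 : str (F.map (show tpow X (n + 2) ⟶ tpow X (n + 2) from B * tE e (n + 2))) =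
      str (F.map (zz σ e (n + 1))) * str (F.map e) := by
    have h4 : (show tpow X (n + 2) ⟶ tpow X (n + 2) from B * tE e (n + 2)) =
        zz σ e (n + 1) ⊗ₘ e := by
      change (tmap e (n + 1) ⊗ₘ e) ≫
        ((show tpow X (n + 1) ⟶ tpow X (n + 1) from ysym σ X (n + 1)) ▷ X) = _
      rw [← tensorHom_id, tensorHom_comp_tensorHom, Category.comp_id]
      rfl
    rw [h4]
    exact strF_tensor F (zz σ e (n + 1)) e
  have h5 : str (F.map (show tpow X (n + 2) ⟶ tpow X (n + 2) from
      B * swE X n * B * tE e (n + 2))) = str (F.map (zz σ e (n + 1))) := by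
    have h6 : str (F.map (show tpow X (n + 2) ⟶ tpow X (n + 2) from
        B * (swE X n * B * tE e (n + 2)))) =
        str (F.map (show tpow X (n + 2) ⟶ tpow X (n + 2) from
          (swE X n * B * tE e (n + 2)) * B)) :=
      strF_comm F (show tpow X (n + 2) ⟶ tpow X (n + 2) from (swE X n * B * tE e (n + 2)))
        (show tpow X (n + 2) ⟶ tpow X (n + 2) from B)
    have h7 : swE X n * B * tE e (n + 2) * B = swE X n * (B * tE e (n + 2)) := by
      rw [mul_assoc (swE X n * B), ← hBT, mul_assoc, ← mul_assoc B B, hBB]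
    have h8 : (show tpow X (n + 2) ⟶ tpow X (n + 2) from swE X n * (B * tE e (n + 2))) =
        (zz σ e (n + 1) ⊗ₘ e) ≫ sw (tpow X n) X := by
      change ((tmap e (n + 1) ⊗ₘ e) ≫
        ((show tpow X (n + 1) ⟶ tpow X (n + 1) from ysym σ X (n + 1)) ▷ X)) ≫
          sw (tpow X n) X = _
      rw [← tensorHom_id, tensorHom_comp_tensorHom, Category.comp_id]
      rfl
    have h9 : F.map (zz σ e (n + 1) ≫ tpow X n ◁ e) = F.map (zz σ e (n + 1)) := by
      have h10 : tmap e (n + 1) ≫ tpow X n ◁ e = tmap e n ⊗ₘ (e ≫ e) := by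
        change (tmap e n ⊗ₘ e) ≫ tpow X n ◁ e = _
        rw [← id_tensorHom, tensorHom_comp_tensorHom, Category.comp_id]
      have h13 : F.map (tmap e (n + 1) ≫ tpow X n ◁ e) = F.map (tmap e (n + 1)) := by
        rw [h10]
        exact F_tensor_congr F rfl he
      rw [zz_comm, Category.assoc, F.map_comp _ (tmap e (n + 1) ≫ tpow X n ◁ e), h13]
      exact (F.map_comp _ _).symm
    rw [mul_assoc B, mul_assoc B, h6, h7, h8, ← h9]
    exact strF_sw F (zz σ e (n + 1)) e
  have h11 := congrArg (fun f => str (F.map f)) h1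
  simp only [strF_smul] at h11
  have h12 : str (F.map (show tpow X (n + 2) ⟶ tpow X (n + 2) from
        (B * tE e (n + 2) + (σ * ((n : ℚ) + 1)) • (B * swE X n * B * tE e (n + 2)) :
          End (tpow X (n + 2))))) =
      str (F.map (show tpow X (n + 2) ⟶ tpow X (n + 2) from B * tE e (n + 2))) +
        ((σ * ((n : ℚ) + 1) : ℚ) : K) * str (F.map (show tpow X (n + 2) ⟶ tpow X (n + 2) from
          B * swE X n * B * tE e (n + 2))) := by
    rw [← strF_smul, ← strF_add]
  rw [h12, h3, h5] at h11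
  push_cast at h11
  rw [h11]
  ring

theorem str_zero {σ : ℚ} (hσ : σ * σ = 1) {X : C} (e : X ⟶ X) (he : F.map (e ≫ e) = F.map e)
    (j : ℕ) (hj : str (F.map e) + σ * (j : K) = 0) (n : ℕ) (hn : j < n) :
    str (F.map (zz σ e n)) = 0 := by
  obtain ⟨m, rfl⟩ : ∃ m, n = j + 1 + m := ⟨n - (j + 1), by omega⟩
  clear hn
  induction m with
  | zero =>
    cases j with
    | zero =>
      have h1 : str (F.map e) = 0 := by simpa using hj
      have h2 : zz σ e 1 = 𝟙 (𝟙_ C) ⊗ₘ e := Category.comp_id _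
      change str (F.map (zz σ e 1)) = 0
      rw [h2]
      exact (strF_tensor F (𝟙 (𝟙_ C)) e).trans (by rw [h1, mul_zero])
    | succ i =>
      have h1 := str_rec F hσ e he i
      have h2 : str (F.map e) + σ * ((i : K) + 1) = 0 := by
        push_cast at hj
        exact hj
      rw [h2, zero_mul] at h1
      have h3 : ((i : K) + 1 + 1) ≠ 0 := by
        have : (((i + 2 : ℕ) : ℕ) : K) ≠ 0 := Nat.cast_ne_zero.mpr (by omega)
        push_cast at this
        intro h
        apply this
        rw [← h]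
        ring
      exact (mul_eq_zero.mp h1).resolve_left h3
  | succ m ih =>
    have h1 := str_rec F hσ e he (j + m)
    have h4 : str (F.map (zz σ e (j + m + 1))) = 0 := by
      have e5 : j + m + 1 = j + 1 + m := by omega
      rw [e5]
      exact ih
    rw [h4, mul_zero] at h1
    have h3 : (((j + m : ℕ) : K) + 1 + 1) ≠ 0 := by
      have : (((j + m + 2 : ℕ) : ℕ) : K) ≠ 0 := Nat.cast_ne_zero.mpr (by omega)
      push_cast at this
      push_cast
      intro h
      apply this
      rw [← h]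
      ring
    have e6 : j + 1 + (m + 1) = j + m + 2 := by omega
    rw [e6]
    exact (mul_eq_zero.mp h1).resolve_left h3

end Str

end NCEuler
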