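import Mathlib
import Pool.Agent.Lib_MP_8f22fa_eul.Rec

/-!
# Vectors fixed by the Young (anti)symmetrisers
-/

set_option autoImplicit false

open CategoryTheory MonoidalCategory Functor.LaxMonoidal Functor.OplaxMonoidal Functor.Monoidal
open NCSign SVect

universe u v₁ u₁

namespace NCEuler

theorem tmul_ne_zero' {K V W : Type*} [Field K] [AddCommGroup V] [Module K V] [AddCommGroup W]
    [Module K W] {v : V} {w : W} (hv : v ≠ 0) (hw : w ≠ 0) :
    (v ⊗ₜ[K] w : TensorProduct K V W) ≠ 0 := by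
  intro h
  have h1 : ∃ f : Module.Dual K V, f v ≠ 0 := by
    by_contra hc
    push Not at hc
    exact hv ((Module.forall_dual_apply_eq_zero_iff K v).mp hc)
  have h2 : ∃ f : Module.Dual K W, f w ≠ 0 := by
    by_contra hc
    push Not at hc
    exact hw ((Module.forall_dual_apply_eq_zero_iff K w).mp hc)
  obtain ⟨f, hf⟩ := h1
  obtain ⟨g, hg⟩ := h2
  have h3 := congrArg (fun z => LinearMap.mul' K K (TensorProduct.map f g z)) h
  simp only [TensorProduct.map_tmul, LinearMap.mul'_apply, map_zero] at h3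
  exact (mul_ne_zero hf hg) h3

variable {C : Type u₁} [Category.{v₁} C] [MonoidalCategory C] [SymmetricCategory C]
variable {K : Type u} [Field K] [CharZero K] (F : C ⥤ SVect K) [F.Braided]

/-- The tensor powers of a vector. -/
noncomputable def vv {X : C} (v : (F.obj X).V) : (n : ℕ) → (F.obj (tpow X n)).V
  | 0 => lin (ε F) (1 : K)
  | n + 1 => lin (μ F (tpow X n) X) ((vv v n ⊗ₜ[K] v : TensorProduct K (F.obj (tpow X n)).V (F.obj X).V))

theorem vv_ne {X : C} {v : (F.obj X).V} (hv : v ≠ 0) (n : ℕ) : vv F v n ≠ 0 := by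
  induction n with
  | zero =>
    intro h
    have h1 := congrArg (lin (Functor.OplaxMonoidal.η F)) h
    have h2 : lin (Functor.OplaxMonoidal.η F) (lin (ε F) (1 : K)) = (1 : K) :=
      congrArg (fun g => g.f.hom (1 : K)) (ε_η F)
    have h3 : (1 : K) = (0 : K) := h2.symm.trans (h1.trans (map_zero (lin (Functor.OplaxMonoidal.η F))))
    exact one_ne_zero h3
  | succ n ih =>
    intro h
    have h1 := congrArg (lin (δ F (tpow X n) X)) h
    have h2 : lin (δ F (tpow X n) X) (lin (μ F (tpow X n) X)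
        ((vv F v n ⊗ₜ[K] v : TensorProduct K (F.obj (tpow X n)).V (F.obj X).V))) =
        (vv F v n ⊗ₜ[K] v : TensorProduct K (F.obj (tpow X n)).V (F.obj X).V) :=
      congrArg (fun g => lin g (vv F v n ⊗ₜ[K] v : TensorProduct K (F.obj (tpow X n)).V (F.obj X).V))
        (μ_δ F (tpow X n) X)
    exact tmul_ne_zero' ih hv (h2.symm.trans (h1.trans (map_zero (lin (δ F (tpow X n) X)))))

theorem vv_tensor {X : C} (v : (F.obj X).V) (n : ℕ) (f : tpow X n ⟶ tpow X n) (g : X ⟶ X) :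
    lin (F.map (f ⊗ₘ g)) (vv F v (n + 1)) = lin (μ F (tpow X n) X)
      ((lin (F.map f) (vv F v n) ⊗ₜ[K] lin (F.map g) v :
        TensorProduct K (F.obj (tpow X n)).V (F.obj X).V)) :=
  (congrArg (fun h => lin h (vv F v n ⊗ₜ[K] v : TensorProduct K (F.obj (tpow X n)).V (F.obj X).V))
    (μ_natural F f g)).symm

theorem vv_tmap {X : C} {v : (F.obj X).V} {e : X ⟶ X} (he : lin (F.map e) v = v) (n : ℕ) :
    lin (F.map (tmap e n)) (vv F v n) = vv F v n := by
  induction n with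
  | zero =>
    change lin (F.map (𝟙 (𝟙_ C))) _ = _
    rw [F.map_id]
    rfl
  | succ n ih =>
    change lin (F.map (tmap e n ⊗ₘ e)) (vv F v (n + 1)) = _
    rw [vv_tensor, ih, he]
    rfl

theorem vv_sw {X : C} {v : (F.obj X).V} {s : K} (hs : s * s = 1)
    (hv : (F.obj X).par.hom v = s • v) (n : ℕ) :
    lin (F.map (sw (tpow X n) X)) (vv F v (n + 2)) = s • vv F v (n + 2) := by
  have h1 : (μ F (tpow X n) X ▷ F.obj X ≫ μ F (tpow X n ⊗ X) X) ≫ F.map (sw (tpow X n) X) =
      sw (F.obj (tpow X n)) (F.obj X) ≫ μ F (tpow X n) X ▷ F.obj X ≫ μ F (tpow X n ⊗ X) X := by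
    rw [map_sw]
    simp only [Category.assoc, μ_δ_assoc]
    rw [← comp_whiskerRight_assoc, μ_δ, id_whiskerRight, Category.id_comp]
  have h2 := congrArg (fun h => lin h (((vv F v n ⊗ₜ[K] v :
    TensorProduct K (F.obj (tpow X n)).V (F.obj X).V)) ⊗ₜ[K] v :
    TensorProduct K (TensorProduct K (F.obj (tpow X n)).V (F.obj X).V) (F.obj X).V)) h1
  have h3 := sw_vec (U := F.obj (tpow X n)) (M := F.obj X) (vv F v n) v s hs hv
  have h4 := congrArg (lin (μ F (tpow X n) X ▷ F.obj X ≫ μ F (tpow X n ⊗ X) X)) h3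
  exact h2.trans (h4.trans (map_smul (lin (μ F (tpow X n) X ▷ F.obj X ≫ μ F (tpow X n ⊗ X) X)) s _))

variable [Preadditive C] [Linear ℚ C] [MonoidalPreadditive C] [F.Additive]

theorem vv_ysym {X : C} {v : (F.obj X).V} {σ : ℚ} (hσ : σ * σ = 1)
    (hv : (F.obj X).par.hom v = (σ : K) • v) (n : ℕ) :
    lin (F.map (show tpow X n ⟶ tpow X n from ysym σ X n)) (vv F v n) = vv F v n := by
  have hs : (σ : K) * (σ : K) = 1 := by exact_mod_cast hσ
  match n with
  | 0 =>
    change lin (F.map (𝟙 (tpow X 0))) _ = _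
    rw [F.map_id]
    rfl
  | 1 =>
    change lin (F.map (𝟙 (tpow X 1))) _ = _
    rw [F.map_id]
    rfl
  | n + 2 =>
    have ih := vv_ysym hσ hv (n + 1)
    set B : tpow X (n + 2) ⟶ tpow X (n + 2) :=
      (show tpow X (n + 1) ⟶ tpow X (n + 1) from ysym σ X (n + 1)) ▷ X with hB
    have h1 : lin (F.map B) (vv F v (n + 2)) = vv F v (n + 2) := by
      have h2 := vv_tensor F v (n + 1)
        (show tpow X (n + 1) ⟶ tpow X (n + 1) from ysym σ X (n + 1)) (𝟙 X)
      have h3 : (show tpow X (n + 1) ⟶ tpow X (n + 1) from ysym σ X (n + 1)) ⊗ₘ 𝟙 X = B :=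
        tensorHom_id _ _
      rw [h3, ih, F.map_id] at h2
      exact h2
    obtain ⟨S, hS⟩ : ∃ S : tpow X (n + 2) ⟶ tpow X (n + 2), S = sw (tpow X n) X := ⟨_, rfl⟩
    have h4 : lin (F.map S) (vv F v (n + 2)) = (σ : K) • vv F v (n + 2) := by
      rw [hS]
      exact vv_sw F hs hv n
    have h5 : ((n : ℚ) + 1 + 1) • (show tpow X (n + 2) ⟶ tpow X (n + 2) from ysym σ X (n + 2)) =
        B + (σ * ((n : ℚ) + 1)) • (B ≫ S ≫ B) := by
      have h6 := nxt_smul (σ := σ) (k := (n : ℚ) + 1) (b := wr X (n + 1) (ysym σ X (n + 1)))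
        (s := swE X n) (by positivity)
      rw [hS]
      exact h6
    have h7 := congrArg (fun f => lin (F.map f) (vv F v (n + 2))) h5
    simp only [lin_map_rat_smul, F.map_add, LinearMap.smul_apply] at h7
    have h8 : lin (F.map B + F.map ((σ * ((n : ℚ) + 1)) • (B ≫ S ≫ B)))
        (vv F v (n + 2)) = lin (F.map B) (vv F v (n + 2)) +
          lin (F.map ((σ * ((n : ℚ) + 1)) • (B ≫ S ≫ B))) (vv F v (n + 2)) := rfl
    rw [h8, lin_map_rat_smul, LinearMap.smul_apply, lin_map_comp, lin_map_comp,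
      LinearMap.comp_apply, LinearMap.comp_apply, h1, h4, map_smul, h1, smul_smul] at h7
    have h9 : (((n : ℚ) + 1 + 1 : ℚ) : K) ≠ 0 := by
      have : ((n : ℚ) + 1 + 1) ≠ 0 := by positivity
      exact_mod_cast this
    have h10 : vv F v (n + 2) + (((σ * ((n : ℚ) + 1) : ℚ) : K) * (σ : K)) • vv F v (n + 2) =
        (((n : ℚ) + 1 + 1 : ℚ) : K) • vv F v (n + 2) := by
      rw [← one_smul K (vv F v (n + 2)), smul_smul, smul_smul, ← add_smul]
      congr 1
      push_cast
      linear_combination ((n : K) + 1) * hs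
    rw [h10] at h7
    have h11 := congrArg (fun z => (((n : ℚ) + 1 + 1 : ℚ) : K)⁻¹ • z) h7
    simp only [smul_smul, inv_mul_cancel₀ h9, one_smul] at h11
    exact h11

theorem zz_ne {X : C} {v : (F.obj X).V} {σ : ℚ} (hσ : σ * σ = 1) (h0 : v ≠ 0)
    (hv : (F.obj X).par.hom v = (σ : K) • v) {e : X ⟶ X} (he : lin (F.map e) v = v) (n : ℕ) :
    F.map (zz σ e n) ≠ 0 := by
  intro h
  have h1 : lin (F.map (zz σ e n)) (vv F v n) = vv F v n := by
    rw [zz, lin_map_comp, LinearMap.comp_apply, vv_tmap F he, vv_ysym F hσ hv]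
  rw [h] at h1
  exact vv_ne F h0 n h1.symm

end NCEuler
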