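import Mathlib
import Pool.Agent.Lib_MP_8f22fa_eul.Vec

/-!
# Summands of tensor powers of vanishing Euler characteristic and purity
-/

set_option autoImplicit false

open CategoryTheory MonoidalCategory Functor.LaxMonoidal Functor.OplaxMonoidal Functor.Monoidal
open NCSign SVect

universe u v₁ u₁ v₂ u₂

namespace NCEuler

section Defs

variable {C : Type u₁} [Category.{v₁} C] {D : Type u₂} [Category.{v₂} D]

/-- `F(z)` is an idempotent contained in the idempotent `F(e)`. -/
def Summand (F : C ⥤ D) {X : C} (z e : X ⟶ X) : Prop :=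
  F.map (z ≫ z) = F.map z ∧ F.map (z ≫ e) = F.map z ∧ F.map (e ≫ z) = F.map z

/-- `F(e)` is an indecomposable idempotent of the ring `F(End X)`. -/
def Indec [Limits.HasZeroMorphisms D] (F : C ⥤ D) {X : C} (e : X ⟶ X) : Prop :=
  F.map (e ≫ e) = F.map e ∧ F.map e ≠ 0 ∧
    ∀ z : X ⟶ X, Summand F z e → F.map z = 0 ∨ F.map z = F.map e

end Defs

variable {C : Type u₁} [Category.{v₁} C] [MonoidalCategory C] [SymmetricCategory C]
variable {K : Type u} [Field K] [CharZero K] (F : C ⥤ SVect K) [F.Braided]
variable [Preadditive C] [Linear ℚ C] [MonoidalPreadditive C] [F.Additive]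

omit [F.Additive] in
theorem zz_summand {σ : ℚ} (hσ : σ * σ = 1) {X : C} {e : X ⟶ X} (he : F.map (e ≫ e) = F.map e)
    (n : ℕ) : Summand F (zz σ e n) (tmap e n) := by
  refine ⟨?_, ?_, ?_⟩
  · rw [zz_zz hσ]
    exact F_zz_congr F σ he n
  · rw [zz_comm, Category.assoc, tmap_comp, ← zz_comm]
    rw [← zz_comm]
    exact F_zz_congr F σ he n
  · rw [zz, ← Category.assoc, tmap_comp]
    exact F_zz_congr F σ he n

variable [RightRigidCategory C]

/-- Purity: if no non-zero summand of the `n`-th tensor power has trace zero and `n` is larger than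
the absolute value of the trace, then `F(e)` has only one parity. -/
theorem pure_of (hQ : ∀ t : 𝟙_ C ⟶ 𝟙_ C, ∃ q : ℚ, t = q • 𝟙 (𝟙_ C)) {X : C} {e : X ⟶ X}
    (he : F.map (e ≫ e) = F.map e) (n : ℕ)
    (hn : ∀ q : ℚ, catTrace e = q • 𝟙 (𝟙_ C) → |q| < n)
    (hz : ∀ z : tpow X n ⟶ tpow X n, Summand F z (tmap e n) → F.map z ≠ 0 → catTrace z ≠ 0) :
    F.map e ≫ parHom (F.obj X) = F.map e ∨ F.map e ≫ parHom (F.obj X) = -F.map e := by
  have hfd := map_finite F X
  set E : Module.End K (F.obj X).V := lin (F.map e) with hE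
  set p : Module.End K (F.obj X).V := (F.obj X).par.hom with hp
  have hEE : E * E = E := by
    have h1 := lin_map_comp F e e
    rw [he] at h1
    exact h1.symm
  have hpp : p * p = 1 := par_mul_par (F.obj X)
  have hEp : E * p = p * E := lin_comm _ _
  have ha := idem_mul (pp_mul_pp hpp) hEE (commute_pp hEp)
  have hb := idem_mul (pm_mul_pm hpp) hEE (commute_pm hEp)
  obtain ⟨q, hq⟩ := hQ (catTrace e)
  have hn' := hn q hq
  have hq' : (q : K) = LinearMap.trace K (F.obj X).V (p * E) := trace_of_catTrace F X e q hq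
  have hqs : str (F.map e) = (q : K) := hq'.symm
  rw [trace_split, trace_idem ha, trace_idem hb] at hq'
  set a : ℕ := Module.finrank K (LinearMap.range (pp p * E)) with ha'
  set b : ℕ := Module.finrank K (LinearMap.range (pm p * E)) with hb'
  have hqab : q = (a : ℚ) - (b : ℚ) := by
    apply Rat.cast_injective (α := K)
    rw [hq']
    push_cast
    rfl
  -- the obstruction
  have key : ∀ σ : ℚ, σ * σ = 1 → ∀ j : ℕ, j < n → q + σ * j = 0 →
      ∀ v : (F.obj X).V, p v = (σ : K) • v → E v = v → v = 0 := by
    intro σ hσ j hj hqj v hv hEv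
    by_contra hv0
    have h1 := zz_ne F hσ hv0 hv hEv n
    apply hz (zz σ e n) (zz_summand F hσ he n) h1
    have h2 : str (F.map (zz σ e n)) = 0 := by
      refine str_zero F hσ e he j ?_ n hj
      rw [hqs]
      exact_mod_cast congrArg (fun x : ℚ => (x : K)) hqj
    have h3 := catTrace_of_trace F hQ (zz σ e n) 0 (by rw [Rat.cast_zero]; exact h2)
    rw [zero_smul] at h3
    exact h3
  rcases le_or_gt b a with hab | hab
  · left
    have h0 : pm p * E = 0 := by
      ext w
      have h1 : p ((pm p * E) w) = ((-1 : ℚ) : K) • ((pm p * E) w) := by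
        have h2 : p * (pm p * E) = -(pm p * E) := by
          rw [← mul_assoc, hp, par_mul_pm, neg_mul]
        have h3 := congrArg (fun f => f w) h2
        push_cast
        rw [neg_smul, one_smul]
        exact h3
      have h2 : E ((pm p * E) w) = (pm p * E) w := by
        have h3 : E * (pm p * E) = pm p * E := by
          rw [← mul_assoc, commute_pm hEp, mul_assoc, hEE]
        exact congrArg (fun f => f w) h3
      have hj : a - b < n := by
        have h4 : ((a - b : ℕ) : ℚ) < n := by
          rw [Nat.cast_sub hab, ← hqab]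
          exact lt_of_le_of_lt (le_abs_self q) hn'
        exact_mod_cast h4
      exact key (-1) (by norm_num) (a - b) hj (by rw [Nat.cast_sub hab, hqab]; ring) _ h1 h2
    have h4 : p * E = E := by
      calc p * E = pp p * E - pm p * E := by rw [← sub_mul, pp_sub_pm]
        _ = pp p * E + pm p * E := by rw [h0, sub_zero, add_zero]
        _ = E := by rw [← add_mul, pp_add_pm, one_mul]
    exact SVect.hom_ext (ModuleCat.hom_ext h4)
  · right
    have h0 : pp p * E = 0 := by
      ext w
      have h1 : p ((pp p * E) w) = ((1 : ℚ) : K) • ((pp p * E) w) := by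
        have h2 : p * (pp p * E) = pp p * E := by
          rw [← mul_assoc, hp, par_mul_pp]
        have h3 := congrArg (fun f => f w) h2
        rw [Rat.cast_one, one_smul]
        exact h3
      have h2 : E ((pp p * E) w) = (pp p * E) w := by
        have h3 : E * (pp p * E) = pp p * E := by
          rw [← mul_assoc, commute_pp hEp, mul_assoc, hEE]
        exact congrArg (fun f => f w) h3
      have hj : b - a < n := by
        have h4 : ((b - a : ℕ) : ℚ) < n := by
          rw [Nat.cast_sub hab.le]
          refine lt_of_le_of_lt ?_ hn'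
          rw [hqab]
          have := neg_abs_le ((a : ℚ) - b)
          linarith
        exact_mod_cast h4
      exact key 1 (by norm_num) (b - a) hj (by rw [Nat.cast_sub hab.le, hqab]; ring) _ h1 h2
    have h4 : p * E = -E := by
      calc p * E = pp p * E - pm p * E := by rw [← sub_mul, pp_sub_pm]
        _ = -(pp p * E + pm p * E) := by rw [h0, zero_sub, zero_add]
        _ = -E := by rw [← add_mul, pp_add_pm, one_mul]
    exact SVect.hom_ext (ModuleCat.hom_ext h4)

omit [MonoidalPreadditive C] [Linear ℚ C] in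
/-- Splitting into indecomposable idempotents. -/
theorem exists_par {X : C}
    (hP : ∀ e : X ⟶ X, Indec F e →
      F.map e ≫ parHom (F.obj X) = F.map e ∨ F.map e ≫ parHom (F.obj X) = -F.map e) (r : ℕ) :
    ∀ z : X ⟶ X, F.map (z ≫ z) = F.map z →
      Module.finrank K (LinearMap.range (lin (F.map z) : Module.End K (F.obj X).V)) ≤ r →
      ∃ w : X ⟶ X, F.map w = F.map z ≫ parHom (F.obj X) := by
  have hfd := map_finite F X
  have hid : ∀ z : X ⟶ X, F.map (z ≫ z) = F.map z →
      (lin (F.map z) : Module.End K (F.obj X).V) * lin (F.map z) = lin (F.map z) := by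
    intro z hz
    have h1 := lin_map_comp F z z
    rw [hz] at h1
    exact h1.symm
  have hpos : ∀ z : X ⟶ X, F.map (z ≫ z) = F.map z → F.map z ≠ 0 →
      0 < Module.finrank K (LinearMap.range (lin (F.map z) : Module.End K (F.obj X).V)) := by
    intro z hz hz0
    rw [Nat.pos_iff_ne_zero]
    intro h1
    apply hz0
    have h2 := trace_idem (hid z hz)
    rw [h1, Nat.cast_zero] at h2
    exact SVect.hom_ext (ModuleCat.hom_ext (idem_zero (hid z hz) h2))
  induction r using Nat.strong_induction_on with
  | _ r ih =>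
    intro z hz hr
    by_cases h0 : F.map z = 0
    · exact ⟨0, by rw [h0, F.map_zero, Limits.zero_comp]⟩
    by_cases hI : Indec F z
    · rcases hP z hI with h1 | h1
      · exact ⟨z, h1.symm⟩
      · exact ⟨-z, by rw [F.map_neg, h1]⟩
    have h1 : ∃ z' : X ⟶ X, Summand F z' z ∧ F.map z' ≠ 0 ∧ F.map z' ≠ F.map z := by
      by_contra hc
      apply hI
      refine ⟨hz, h0, fun z' hz' => ?_⟩
      by_contra h2
      push Not at h2
      exact hc ⟨z', hz', h2⟩
    obtain ⟨z', ⟨hs1, hs2, hs3⟩, hz'0, hz'1⟩ := h1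
    have hz'' : F.map ((z - z') ≫ (z - z')) = F.map (z - z') := by
      rw [Preadditive.sub_comp, Preadditive.comp_sub, Preadditive.comp_sub, F.map_sub, F.map_sub,
        F.map_sub, F.map_sub, hz, hs1, hs2, hs3]
      abel
    have hz''0 : F.map (z - z') ≠ 0 := by
      rw [F.map_sub, sub_ne_zero]
      exact hz'1.symm
    have hrk : (Module.finrank K (LinearMap.range (lin (F.map z) : Module.End K (F.obj X).V)) : K) =
        (Module.finrank K (LinearMap.range (lin (F.map z') : Module.End K (F.obj X).V)) : K) +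
        (Module.finrank K (LinearMap.range (lin (F.map (z - z')) : Module.End K (F.obj X).V)) : K) := by
      rw [← trace_idem (hid z hz), ← trace_idem (hid z' hs1), ← trace_idem (hid _ hz''), ← map_add]
      congr 1
      rw [F.map_sub]
      ext v
      change lin (F.map z) v = lin (F.map z') v + (lin (F.map z) v - lin (F.map z') v)
      rw [add_sub_cancel]
    have hrk' : Module.finrank K (LinearMap.range (lin (F.map z) : Module.End K (F.obj X).V)) =
        Module.finrank K (LinearMap.range (lin (F.map z') : Module.End K (F.obj X).V)) +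
        Module.finrank K (LinearMap.range (lin (F.map (z - z')) : Module.End K (F.obj X).V)) := by
      exact_mod_cast hrk
    have hp1 := hpos z' hs1 hz'0
    have hp2 := hpos (z - z') hz'' hz''0
    obtain ⟨w1, hw1⟩ := ih (r - 1) (by omega) z' hs1 (by omega)
    obtain ⟨w2, hw2⟩ := ih (r - 1) (by omega) (z - z') hz'' (by omega)
    refine ⟨w1 + w2, ?_⟩
    rw [F.map_add, hw1, hw2, F.map_sub, Preadditive.sub_comp]
    abel

theorem cplus_of_bound (hQ : ∀ t : 𝟙_ C ⟶ 𝟙_ C, ∃ q : ℚ, t = q • 𝟙 (𝟙_ C)) {X : C}
    (h3 : ∀ e : X ⟶ X, Indec F e → ∃ n : ℕ, (∀ q : ℚ, catTrace e = q • 𝟙 (𝟙_ C) → |q| < n) ∧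
      ∀ z : tpow X n ⟶ tpow X n, Summand F z (tmap e n) → F.map z ≠ 0 → catTrace z ≠ 0) :
    NCSign.CPlus F X := by
  rw [cplus_iff_parHom]
  obtain ⟨w, hw⟩ := exists_par F (X := X) (fun e he => by
    obtain ⟨n, hn, hz⟩ := h3 e he
    exact pure_of F hQ he.1 n hn hz)
    (Module.finrank K (LinearMap.range (lin (F.map (𝟙 X)) : Module.End K (F.obj X).V))) (𝟙 X)
    (by rw [Category.comp_id]) le_rfl
  exact ⟨w, by rw [hw, F.map_id, Category.id_comp]⟩

end NCEuler
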