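import Mathlib
import Pool.Agent.Lib_MP_8f22fa_eul.Pure

/-!
# Tensor powers of pure idempotents
-/

set_option autoImplicit false

open CategoryTheory MonoidalCategory Functor.LaxMonoidal Functor.OplaxMonoidal Functor.Monoidal
open NCSign SVect

universe u v₁ u₁

namespace NCEuler

section Pur

variable {K : Type u} [Field K]

/-- The values of `f` are eigenvectors of the parity operator with eigenvalue `s`. -/
def Pur (s : K) {M N : SVect K} (f : M ⟶ N) : Prop :=
  ∀ v, N.par.hom (lin f v) = s • lin f v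

theorem Pur.pre {s : K} {M N L : SVect K} {f : M ⟶ N} (hf : Pur s f) (g : L ⟶ M) :
    Pur s (g ≫ f) := fun v => hf (lin g v)

theorem Pur.post {s : K} {M N L : SVect K} {f : M ⟶ N} (hf : Pur s f) (g : N ⟶ L) :
    Pur s (f ≫ g) := by
  intro v
  have h1 : L.par.hom (lin g (lin f v)) = lin g (N.par.hom (lin f v)) :=
    (comm_apply g (lin f v)).symm
  have h2 : lin (f ≫ g) v = lin g (lin f v) := rfl
  rw [h2, h1, hf v, map_smul]

theorem Pur.tensor {s t : K} {M N M' N' : SVect K} {f : M ⟶ N} {g : M' ⟶ N'} (hf : Pur s f)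
    (hg : Pur t g) : Pur (s * t) (f ⊗ₘ g) := by
  have h1 : TensorProduct.map N.par.hom N'.par.hom ∘ₗ TensorProduct.map (lin f) (lin g) =
      (s * t) • TensorProduct.map (lin f) (lin g) := by
    apply TensorProduct.ext'
    intro x y
    rw [LinearMap.comp_apply, TensorProduct.map_tmul, TensorProduct.map_tmul, hf x, hg y,
      LinearMap.smul_apply, TensorProduct.map_tmul, TensorProduct.tmul_smul,
      TensorProduct.smul_tmul', TensorProduct.smul_tmul', smul_smul, mul_comm t s]
  intro v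
  exact congrArg (fun h => h v) h1

theorem Pur.unit : Pur (1 : K) (𝟙 (𝟙_ (SVect K))) := by
  intro v
  rw [one_smul]
  rfl

end Pur

variable {C : Type u₁} [Category.{v₁} C] [MonoidalCategory C] [SymmetricCategory C]
variable {K : Type u} [Field K] [CharZero K] (F : C ⥤ SVect K) [F.Braided]

theorem pur_tmap {s : K} {X : C} {e : X ⟶ X} (he : Pur s (F.map e)) (n : ℕ) :
    Pur (s ^ n) (F.map (tmap e n)) := by
  induction n with
  | zero =>
    have h1 : F.map (tmap e 0) = η F ≫ 𝟙 (𝟙_ (SVect K)) ≫ ε F := by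
      rw [Category.id_comp, η_ε]
      exact F.map_id _
    rw [h1, pow_zero]
    exact (Pur.unit.post (ε F)).pre (η F)
  | succ n ih =>
    have h1 : F.map (tmap e (n + 1)) = δ F (tpow X n) X ≫ (F.map (tmap e n) ⊗ₘ F.map e) ≫
        μ F (tpow X n) X := map_tensor F _ _
    rw [h1, pow_succ]
    exact ((ih.tensor he).post _).pre _

variable [Preadditive C] [Linear ℚ C] [F.Additive] [RightRigidCategory C]

/-- Idempotents of one parity have non-zero trace. -/
theorem trace_ne_of_pur {Y : C} {s : K} (hs : s ≠ 0) {z : Y ⟶ Y} (hz : F.map (z ≫ z) = F.map z)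
    (hp : Pur s (F.map z)) (h0 : F.map z ≠ 0) : catTrace z ≠ 0 := by
  have hfd := map_finite F Y
  intro h1
  have h2 := trace_of_catTrace F Y z 0 (by rw [h1, zero_smul])
  have h3 : ((F.obj Y).par.hom : Module.End K (F.obj Y).V) * (lin (F.map z) : Module.End K (F.obj Y).V) =
      s • (lin (F.map z) : Module.End K (F.obj Y).V) := by
    ext v
    exact hp v
  rw [h3, map_smul, Rat.cast_zero, smul_eq_mul] at h2
  have h4 : LinearMap.trace K (F.obj Y).V (lin (F.map z) : Module.End K (F.obj Y).V) = 0 :=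
    (mul_eq_zero.mp h2.symm).resolve_left hs
  have h5 : (lin (F.map z) : Module.End K (F.obj Y).V) * lin (F.map z) = lin (F.map z) := by
    have h1 := lin_map_comp F z z
    rw [hz] at h1
    exact h1.symm
  exact h0 (SVect.hom_ext (ModuleCat.hom_ext (idem_zero h5 h4)))

/-- `C⁺` makes indecomposable idempotents pure. -/
theorem pur_of_cplus {X : C} (hX : NCSign.CPlus F X) {e : X ⟶ X} (he : Indec F e) :
    Pur (1 : K) (F.map e) ∨ Pur (-1 : K) (F.map e) := by
  obtain ⟨p0, hp0⟩ := hX
  set E : Module.End K (F.obj X).V := lin (F.map e) with hE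
  set p : Module.End K (F.obj X).V := (F.obj X).par.hom with hp
  have hEE : E * E = E := by
    have h1 := lin_map_comp F e e
    rw [he.1] at h1
    exact h1.symm
  have hpp : p * p = 1 := par_mul_par (F.obj X)
  have hEp : E * p = p * E := lin_comm _ _
  have ha := idem_mul (pp_mul_pp hpp) hEE (commute_pp hEp)
  have hz : (lin (F.map (e ≫ p0)) : Module.End K (F.obj X).V) = pp p * E := by
    rw [lin_map_comp, hp0]
    rfl
  have hs : Summand F (e ≫ p0) e := by
    refine ⟨?_, ?_, ?_⟩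
    · apply SVect.hom_ext
      apply ModuleCat.hom_ext
      have h1 := lin_map_comp F (e ≫ p0) (e ≫ p0)
      rw [hz] at h1
      exact h1.trans (ha.trans hz.symm)
    · apply SVect.hom_ext
      apply ModuleCat.hom_ext
      have h1 := lin_map_comp F (e ≫ p0) e
      rw [hz] at h1
      refine h1.trans ((?_ : E * (pp p * E) = pp p * E).trans hz.symm)
      rw [← mul_assoc, commute_pp hEp, mul_assoc, hEE]
    · apply SVect.hom_ext
      apply ModuleCat.hom_ext
      have h1 := lin_map_comp F e (e ≫ p0)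
      rw [hz] at h1
      refine h1.trans ((?_ : (pp p * E) * E = pp p * E).trans hz.symm)
      rw [mul_assoc, hEE]
  rcases he.2.2 _ hs with h1 | h1
  · right
    rw [h1] at hz
    have h0 : pp p * E = 0 := hz.symm
    have h4 : p * E = -E := by
      calc p * E = pp p * E - pm p * E := by rw [← sub_mul, pp_sub_pm]
        _ = -(pp p * E + pm p * E) := by rw [h0, zero_sub, zero_add]
        _ = -E := by rw [← add_mul, pp_add_pm, one_mul]
    intro v
    rw [neg_smul, one_smul]
    exact congrArg (fun f => f v) h4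
  · left
    rw [h1] at hz
    have h0 : pp p * E = E := hz.symm
    have h4 : p * E = E := by
      rw [← h0, ← mul_assoc, hp, par_mul_pp]
    intro v
    rw [one_smul]
    exact congrArg (fun f => f v) h4

theorem nonvanishing_of_cplus {X : C} (hX : NCSign.CPlus F X) (e : X ⟶ X) (he : Indec F e) (n : ℕ)
    (z : tpow X n ⟶ tpow X n) (hz : Summand F z (tmap e n)) (h0 : F.map z ≠ 0) :
    catTrace z ≠ 0 := by
  obtain ⟨s, hs, hp⟩ : ∃ s : K, s ≠ 0 ∧ Pur s (F.map e) := by
    rcases pur_of_cplus F hX he with h | h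
    · exact ⟨1, one_ne_zero, h⟩
    · exact ⟨-1, neg_ne_zero.mpr one_ne_zero, h⟩
  have h1 : Pur (s ^ n) (F.map z) := by
    have h2 := (pur_tmap F hp n).pre (F.map z)
    rw [← F.map_comp, hz.2.1] at h2
    exact h2
  exact trace_ne_of_pur F (pow_ne_zero n hs) hz.1 h1 h0

include F in
/-- The bound on the trace. -/
theorem bound_of_rat (hQ : ∀ t : 𝟙_ C ⟶ 𝟙_ C, ∃ q : ℚ, t = q • 𝟙 (𝟙_ C)) {X : C} (e : X ⟶ X) :
    ∃ n : ℕ, ∀ q : ℚ, catTrace e = q • 𝟙 (𝟙_ C) → |q| < n := by
  obtain ⟨q, hq⟩ := hQ (catTrace e)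
  obtain ⟨n, hn⟩ := exists_nat_gt |q|
  refine ⟨n, fun q' hq' => ?_⟩
  have h1 := trace_of_catTrace F X e q hq
  have h2 := trace_of_catTrace F X e q' hq'
  rw [← h1] at h2
  rw [Rat.cast_injective h2]
  exact hn

theorem euler [MonoidalPreadditive C] (hQ : ∀ t : 𝟙_ C ⟶ 𝟙_ C, ∃ q : ℚ, t = q • 𝟙 (𝟙_ C)) (X : C) :
    [NCSign.CPlus F X,
      ∀ e : X ⟶ X, Indec F e → ∀ (n : ℕ) (z : tpow X n ⟶ tpow X n), Summand F z (tmap e n) →
        F.map z ≠ 0 → catTrace z ≠ 0,
      ∀ e : X ⟶ X, Indec F e → ∃ n : ℕ, (∀ q : ℚ, catTrace e = q • 𝟙 (𝟙_ C) → |q| < n) ∧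
        ∀ z : tpow X n ⟶ tpow X n, Summand F z (tmap e n) → F.map z ≠ 0 → catTrace z ≠ 0].TFAE := by
  tfae_have 1 → 2 := fun h e he n z hz h0 => nonvanishing_of_cplus F h e he n z hz h0
  tfae_have 2 → 3 := by
    intro h e he
    obtain ⟨n, hn⟩ := bound_of_rat F hQ e
    exact ⟨n, hn, h e he n⟩
  tfae_have 3 → 1 := fun h => cplus_of_bound F hQ h
  tfae_finish

end NCEuler
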